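import Pool.Agent.Q229.NR.Asym

/-!
# A Boolean predicate with non-redundancy strictly between linear and quadratic
-/

set_option autoImplicit false

namespace Pool.Agent.Results.MP_7c0615_lc.IntermediateGrowth

open Q229.NR Filter Topology

/-- There is a Boolean predicate whose non-redundancy is super-linear and sub-quadratic. -/
theorem result :
    ∃ (r : ℕ) (P : Set (Fin r → Bool)),
      Tendsto (fun n : ℕ => (NRD P n : ℝ) / (n : ℝ)) atTop atTop ∧
      Tendsto (fun n : ℕ => (NRD P n : ℝ) / (n : ℝ) ^ 2) atTop (𝓝 0) :=
  ⟨6, P6, superlinear, subquadratic⟩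

end Pool.Agent.Results.MP_7c0615_lc.IntermediateGrowth
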